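import Pool.Agent.Q196.FL.BetaN

/-!
# The free locally convex space over `ℕ ∪ {p}` is nuclear iff `p` is a rapid P-point

Let `p ∈ βℕ ∖ ℕ` and `X = ℕ ∪ {p}`.  Then `L(X)` is nuclear iff it is multi-Hilbert iff `p` is a
rapid P-point.  Since there are (in ZFC) free ultrafilters which are not P-points, `L(X)` is not
multi-Hilbert for some `p`.

Outline.  Multi-Hilbert implies nuclear for every free locally convex space (factorization
of operators to Hilbert spaces through `ℓ₁(J)` and the little Grothendieck theorem).  For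
`X = ℕ ∪ {p}` nuclearity means: each positive sequence `d` with `lim_p d = 0` is summable on some
set of `p`.  Necessity: apply nuclearity to the operator `L(X) → ℓ₁` which sends `n` to `d_n e_n`
and `p` to `0`.  Sufficiency: for a continuous seminorm `r` take `d_n = √(r (n - p)) + 2^{-n}` and
`B ∈ p` with `∑_B d < ∞`; the operator `L(X) → ℓ₁`, `n ↦ e_0 + w_n e_{n+1}`, `p ↦ e_0`, with
`w = d` on `B` and `w` large outside `B`, gives a nuclear representation of the identity.  The
summability property is equivalent to `p` being a rapid P-point.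
-/

namespace Pool.Agent.Results.MP_a34ed5_an.NuclearIffRapidPPoint

open Topology

universe u

/-- The subspace `ℕ ∪ {p}` of `βℕ`.  (`Ultrafilter ℕ` with its standard topology is `βℕ`, and `n` is
identified with the principal ultrafilter `pure n`.) -/
abbrev XP (p : Ultrafilter ℕ) : Type :=
  {x : Ultrafilter ℕ // x = p ∨ x ∈ Set.range (pure : ℕ → Ultrafilter ℕ)}

/-- `δ : X → E` makes `E` the free (Hausdorff) locally convex space over `X`: `δ` is continuous, and
each continuous map of `X` to a Hausdorff locally convex space `F` has exactly one extension to a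
continuous linear map `E → F`. -/
def IsFreeLCS {X : Type u} [TopologicalSpace X] {E : Type u} [AddCommGroup E] [Module ℝ E]
    [TopologicalSpace E] (δ : X → E) : Prop :=
  Continuous δ ∧ ∀ (F : Type u) [AddCommGroup F] [Module ℝ F] [TopologicalSpace F]
    [IsTopologicalAddGroup F] [ContinuousSMul ℝ F] [LocallyConvexSpace ℝ F] [T2Space F]
    (f : X → F), Continuous f → ∃! T : E →L[ℝ] F, ∀ x, T (δ x) = f x

/-- A seminorm `q` is Hilbertian: `q x = √(b x x)` for a positive semidefinite symmetric bilinear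
form `b`. -/
def IsHilbertian {E : Type u} [AddCommGroup E] [Module ℝ E] (q : Seminorm ℝ E) : Prop :=
  ∃ b : E →ₗ[ℝ] E →ₗ[ℝ] ℝ, ((∀ x y, b x y = b y x) ∧ ∀ x, 0 ≤ b x x) ∧
    ∀ x, q x = Real.sqrt (b x x)

/-- `E` is multi-Hilbert: its topology is generated by a family of Hilbertian seminorms. -/
def MultiHilbert (E : Type u) [AddCommGroup E] [Module ℝ E] [TopologicalSpace E] : Prop :=
  ∃ (ι : Type u) (p : SeminormFamily ℝ E ι), (∀ i, IsHilbertian (p i)) ∧ WithSeminorms p

/-- `E` is nuclear: for every continuous seminorm `r` there is a continuous seminorm `q ≥ r` such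
that the canonical map from the normed space `E_q` to the completion `B` of `E_r` is a nuclear
operator.  Here `j : E → B`, `‖j x‖ = r x`, dense range, is the canonical map to the completion, and
nuclearity says `j = ∑ f_k ⊗ y_k` with linear functionals `f_k` on `E`, `|f_k| ≤ c_k q`, and `y_k`
in `B` such that `∑ c_k ‖y_k‖ < ∞`. -/
def IsNuclearSpace (E : Type u) [AddCommGroup E] [Module ℝ E] [TopologicalSpace E] : Prop :=
  ∀ r : Seminorm ℝ E, Continuous r → ∃ q : Seminorm ℝ E, Continuous q ∧ r ≤ q ∧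
    ∃ (B : Type u) (_ : NormedAddCommGroup B) (_ : NormedSpace ℝ B) (_ : CompleteSpace B)
      (j : E →ₗ[ℝ] B) (f : ℕ → E →ₗ[ℝ] ℝ) (c : ℕ → ℝ) (y : ℕ → B),
      (∀ x, ‖j x‖ = r x) ∧ DenseRange j ∧ (∀ k x, |f k x| ≤ c k * q x) ∧
      Summable (fun k => c k * ‖y k‖) ∧ ∀ x, HasSum (fun k => f k x • y k) (j x)

/-- `p` is a P-point: for sets `A n ∈ p` there is `B ∈ p` almost contained in every `A n`. -/
def IsPPoint (p : Ultrafilter ℕ) : Prop :=
  ∀ A : ℕ → Set ℕ, (∀ n, A n ∈ p) → ∃ B ∈ p, ∀ n, (B \ A n).Finite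

/-- `p` is rapid: for each `f : ℕ → ℕ` there is `B ∈ p` with at most `n` elements below `f n`, for
all `n`. -/
def IsRapid (p : Ultrafilter ℕ) : Prop :=
  ∀ f : ℕ → ℕ, ∃ B ∈ p, ∀ n, (B ∩ Set.Iio (f n)).ncard ≤ n

/-- For each free ultrafilter `p` and the free locally convex space `E = L(X)` over
`X = ℕ ∪ {p}`: `L(X)` is nuclear iff `p` is a rapid P-point, and `L(X)` is multi-Hilbert iff `p` is
a rapid P-point.  Moreover some free ultrafilter is not a P-point. -/
theorem result :
    (∀ p : Ultrafilter ℕ, (∀ n, p ≠ pure n) →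
      ∀ (E : Type) [AddCommGroup E] [Module ℝ E] [TopologicalSpace E] [IsTopologicalAddGroup E]
        [ContinuousSMul ℝ E] [LocallyConvexSpace ℝ E] [T2Space E] (δ : XP p → E),
        IsFreeLCS δ →
        ((IsNuclearSpace E ↔ IsRapid p ∧ IsPPoint p) ∧
          (MultiHilbert E ↔ IsRapid p ∧ IsPPoint p))) ∧
    ∃ p : Ultrafilter ℕ, (∀ n, p ≠ pure n) ∧ ¬ IsPPoint p :=
  ⟨fun p hp E _ _ _ _ _ _ _ δ hδ => Pool.Agent.Q196.FL.betaN (p := p) hp (δ := δ) hδ,
    Pool.Agent.Q196.FL.exists_not_pPoint⟩

end Pool.Agent.Results.MP_a34ed5_an.NuclearIffRapidPPoint
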